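import Pool.Agent.W207.PF.SpecA

/-! PF-APX3: the limit of the main terms. -/

set_option autoImplicit false

open Filter Topology Set MeasureTheory
open scoped BigOperators

namespace Pool.Agent.W108.PF

open W207.PR (ct dt G)
open W207.PF

/-- the window -/
noncomputable def chi (h : ℝ) : ℝ → ℝ := (Ioo (-(h / 2)) (h / 2)).indicator fun _ => (1 : ℝ)

theorem chi_eq (h a : ℝ) : chi h a = if |a| < h / 2 then 1 else 0 := by
  unfold chi
  rw [Set.indicator_apply]
  simp only [Set.mem_Ioo, abs_lt]

theorem chi_int (h : ℝ) : Integrable (chi h) := by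
  unfold chi
  refine (integrable_indicator_iff measurableSet_Ioo).2 ?_
  exact integrableOn_const (by simp) (by simp)

theorem int_chi_mul (h : ℝ) (hh : 0 < h) (f : ℝ → ℝ) :
    ∫ s, chi h s * f s = ∫ s in (-(h / 2))..(h / 2), f s := by
  have h1 : (fun s => chi h s * f s) = (Ioo (-(h / 2)) (h / 2)).indicator f := by
    funext s
    unfold chi
    by_cases hs : s ∈ Ioo (-(h / 2)) (h / 2)
    · rw [Set.indicator_of_mem hs, Set.indicator_of_mem hs, one_mul]
    · rw [Set.indicator_of_notMem hs, Set.indicator_of_notMem hs, zero_mul]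
  rw [h1, integral_indicator measurableSet_Ioo, ← integral_Ioc_eq_integral_Ioo,
    intervalIntegral.integral_of_le (by linarith)]

/-- swapping -/
theorem ct_swap (c W : ℝ → ℝ) (hc : Integrable c) (hW : Integrable W) :
    ∫ a, ct c a * W a = ∫ y, c y * ct W y := by
  have h1 : ∀ a, ct c a * W a = ∫ y, (W a * c y) * Real.cos (2 * Real.pi * y * a) := by
    intro a
    unfold ct
    rw [mul_comm, ← integral_const_mul]
    refine integral_congr_ae (Eventually.of_forall fun y => ?_)
    show W a * (c y * Real.cos (2 * Real.pi * y * a)) = (W a * c y) * Real.cos (2 * Real.pi * y * a)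
    ring
  have h2 : ∀ y, c y * ct W y = ∫ a, (W a * c y) * Real.cos (2 * Real.pi * y * a) := by
    intro y
    unfold ct
    rw [← integral_const_mul]
    refine integral_congr_ae (Eventually.of_forall fun a => ?_)
    show c y * (W a * Real.cos (2 * Real.pi * a * y)) = (W a * c y) * Real.cos (2 * Real.pi * y * a)
    rw [show 2 * Real.pi * a * y = 2 * Real.pi * y * a by ring]
    ring
  simp only [h1, h2]
  apply integral_integral_swap
  have h3 : Integrable (fun p : ℝ × ℝ => W p.1 * c p.2) (volume.prod volume) := hW.mul_prod hc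
  refine h3.mul_bdd (c := 1) ?_ ?_
  · exact Continuous.aestronglyMeasurable (by fun_prop)
  · exact Eventually.of_forall fun p => by
      rw [Real.norm_eq_abs]
      exact Real.abs_cos_le_one _

/-- the smoothed tent -/
noncomputable def gg (h a : ℝ) : ℝ := ∫ s, chi h s * tn 1 (a - s)

theorem tn_int (hT : S_TN) : Integrable (tn 1) := by
  have h1 := (hT 1 one_pos).2.2.1
  by_contra h
  rw [integral_undef h] at h1
  norm_num at h1

theorem gg_prod (hT : S_TN) (h : ℝ) :
    Integrable (fun p : ℝ × ℝ => chi h p.2 * tn 1 (p.1 - p.2)) (volume.prod volume) := by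
  have := Integrable.convolution_integrand (ContinuousLinearMap.mul ℝ ℝ) (chi_int h) (tn_int hT)
  exact this

theorem gg_int (hT : S_TN) (h : ℝ) : Integrable (gg h) := by
  have := (gg_prod hT h).integral_prod_left
  exact this

theorem ct_gg (hT : S_TN) (h y : ℝ) : ct (gg h) y = ct (chi h) y * ct (tn 1) y := by
  have h1 : ∀ a, gg h a * Real.cos (2 * Real.pi * a * y) =
      ∫ s, (chi h s * tn 1 (a - s)) * Real.cos (2 * Real.pi * a * y) := by
    intro a
    unfold gg
    rw [integral_mul_const]
  unfold ct
  simp only [h1]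
  rw [integral_integral_swap]
  · have h2 : ∀ s, ∫ a, (chi h s * tn 1 (a - s)) * Real.cos (2 * Real.pi * a * y) =
        (chi h s * Real.cos (2 * Real.pi * s * y)) * ct (tn 1) y := by
      intro s
      have h3 := integral_sub_right_eq_self
        (fun a => (chi h s * tn 1 a) * Real.cos (2 * Real.pi * (a + s) * y)) s (μ := volume)
      simp only [sub_add_cancel] at h3
      rw [h3]
      have h4 : ∀ a, (chi h s * tn 1 a) * Real.cos (2 * Real.pi * (a + s) * y) =
          (chi h s * Real.cos (2 * Real.pi * s * y)) * (tn 1 a * Real.cos (2 * Real.pi * a * y)) -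
          (chi h s * Real.sin (2 * Real.pi * s * y)) * (tn 1 a * Real.sin (2 * Real.pi * a * y)) := by
        intro a
        rw [show 2 * Real.pi * (a + s) * y = 2 * Real.pi * a * y + 2 * Real.pi * s * y by ring,
          Real.cos_add]
        ring
      have hi1 : Integrable fun a => tn 1 a * Real.cos (2 * Real.pi * a * y) := by
        refine (tn_int hT).mul_bdd (c := 1) (Continuous.aestronglyMeasurable (by fun_prop)) ?_
        exact Eventually.of_forall fun p => by
          rw [Real.norm_eq_abs]
          exact Real.abs_cos_le_one _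
      have hi2 : Integrable fun a => tn 1 a * Real.sin (2 * Real.pi * a * y) := by
        refine (tn_int hT).mul_bdd (c := 1) (Continuous.aestronglyMeasurable (by fun_prop)) ?_
        exact Eventually.of_forall fun p => by
          rw [Real.norm_eq_abs]
          exact Real.abs_sin_le_one _
      have hS : ∫ a, tn 1 a * Real.sin (2 * Real.pi * a * y) = 0 := by
        have h5 := integral_neg_eq_self (fun a => tn 1 a * Real.sin (2 * Real.pi * a * y)) volume
        have h6 : ∀ a, tn 1 (-a) * Real.sin (2 * Real.pi * (-a) * y) =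
            -(tn 1 a * Real.sin (2 * Real.pi * a * y)) := by
          intro a
          rw [show 2 * Real.pi * (-a) * y = -(2 * Real.pi * a * y) by ring, Real.sin_neg]
          unfold tn
          rw [abs_neg]
          ring
        simp only [h6] at h5
        rw [integral_neg] at h5
        linarith
      simp only [h4]
      rw [integral_sub (hi1.const_mul _) (hi2.const_mul _), integral_const_mul, integral_const_mul,
        hS, mul_zero, sub_zero]
      rfl
    simp only [h2]
    rw [integral_mul_const]
    rfl
  · refine (gg_prod hT h).mul_bdd (c := 1) (Continuous.aestronglyMeasurable (by fun_prop)) ?_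
    exact Eventually.of_forall fun p => by
      rw [Real.norm_eq_abs]
      exact Real.abs_cos_le_one _

theorem ct_chi (h : ℝ) (hh : 0 < h) (y : ℝ) : ct (chi h) y = sn h y := by
  unfold ct
  rw [int_chi_mul h hh]
  rfl

theorem nuw_eq (hT : S_TN) (h : ℝ) (hh : 0 < h) (a : ℝ) : nuw h a = h + (chi h a - gg h a) := by
  have h1 : gg h a = ∫ α in (a - h / 2)..(a + h / 2), tn 1 α := by
    unfold gg
    rw [int_chi_mul h hh (fun s => tn 1 (a - s)), intervalIntegral.integral_comp_sub_left]
    congr 1
    ring
  have h2 : ∫ α in (a - h / 2)..(a + h / 2), min |α| 1 =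
      ∫ α in (a - h / 2)..(a + h / 2), (1 - tn 1 α) := by
    refine intervalIntegral.integral_congr fun α _ => ?_
    show min |α| 1 = 1 - tn 1 α
    unfold tn
    rw [div_one]
    rcases le_total |α| 1 with h3 | h3
    · rw [min_eq_left h3, max_eq_left (by linarith)]
      ring
    · rw [min_eq_right h3, max_eq_right (by linarith)]
      ring
  unfold nuw
  rw [h2, intervalIntegral.integral_sub (by simp)
    ((hT 1 one_pos).1.intervalIntegrable _ _), ← h1, chi_eq,
    intervalIntegral.integral_const]
  simp only [smul_eq_mul, mul_one]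
  ring

theorem t_APX3 : S_APX3 := by
  intro hT hSN hA1 hA2 h hh b hb hbe hbs
  obtain ⟨hs0, hsx, hsc, hse, -⟩ := hSN h hh
  set c : ℝ → ℝ := fun y => b y * sn h y with hcd
  have hcc : Continuous c := hb.mul hsc
  have hce : ∀ y, c (-y) = c y := fun y => by
    show b (-y) * sn h (-y) = b y * sn h y
    rw [hbe, hse]
  have hcs : HasCompactSupport c := hbs.mul_right
  have hci : Integrable c := hcc.integrable_of_hasCompactSupport hcs
  have hgi := gg_int hT h
  have hki := chi_int h
  have hWi : Integrable (fun a => chi h a - gg h a) := hki.sub hgi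
  -- bound
  set M : ℝ := ∫ y, |c y| with hM
  have hct : ∀ a, |ct c a| ≤ M := by
    intro a
    unfold ct
    refine (abs_integral_le_integral_abs).trans ?_
    refine integral_mono_of_nonneg (Eventually.of_forall fun y => abs_nonneg _) hci.abs
      (Eventually.of_forall fun y => ?_)
    show |c y * Real.cos (2 * Real.pi * y * a)| ≤ |c y|
    rw [abs_mul]
    exact mul_le_of_le_one_right (abs_nonneg _) (Real.abs_cos_le_one _)
  have hM0 : 0 ≤ M := (abs_nonneg _).trans (hct 0)
  have hkb : ∀ R, 0 < R → ∀ a, |tn R a * ct c a| ≤ M := by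
    intro R hR a
    have h1 := (hT R hR).2.1 a
    rw [abs_mul, abs_of_nonneg h1.1]
    calc tn R a * |ct c a| ≤ 1 * |ct c a| := mul_le_mul_of_nonneg_right h1.2 (abs_nonneg _)
      _ ≤ M := by rw [one_mul]; exact hct a
  -- pointwise limit
  have htn : ∀ a, Tendsto (fun R : ℝ => tn R a) atTop (𝓝 1) := by
    intro a
    have h1 : Tendsto (fun R : ℝ => |a| / R) atTop (𝓝 0) :=
      tendsto_const_nhds.div_atTop tendsto_id
    have h2 : Tendsto (fun R : ℝ => max (1 - |a| / R) 0) atTop (𝓝 (max (1 - 0) 0)) :=
      (tendsto_const_nhds.sub h1).max tendsto_const_nhds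
    simpa [tn] using h2
  -- second part
  have hL2 : Tendsto (fun R : ℝ => ∫ a, (tn R a * ct c a) * (chi h a - gg h a)) atTop
      (𝓝 (∫ a, ct c a * (chi h a - gg h a))) := by
    refine tendsto_integral_filter_of_dominated_convergence
      (fun a => M * |chi h a - gg h a|) ?_ ?_ (hWi.abs.const_mul M) ?_
    · filter_upwards [eventually_gt_atTop 0] with R hR
      exact (hA1 c hcc hce hcs R hR).1.aestronglyMeasurable.mul hWi.aestronglyMeasurable
    · filter_upwards [eventually_gt_atTop 0] with R hR
      refine Eventually.of_forall fun a => ?_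
      rw [Real.norm_eq_abs, abs_mul]
      exact mul_le_mul_of_nonneg_right (hkb R hR a) (abs_nonneg _)
    · refine Eventually.of_forall fun a => ?_
      have h1 := ((htn a).mul_const (ct c a)).mul_const (chi h a - gg h a)
      rw [one_mul] at h1
      exact h1
  -- first part
  have hL1 : Tendsto (fun R : ℝ => ∫ a, tn R a * ct c a) atTop (𝓝 (c 0)) := by
    rw [Metric.tendsto_atTop]
    intro ε hε
    obtain ⟨R0, hR0, h1⟩ := hA2 hT c hcc hcs (ε / 2) (by positivity)
    refine ⟨R0, fun R hR => ?_⟩
    have h2 := h1 R hR 0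
    have h3 := (hA1 c hcc hce hcs R (hR0.trans_le hR)).2.2 0
    rw [← h3] at h2
    have h4 : ct (fun a => tn R a * ct c a) 0 = ∫ a, tn R a * ct c a := by
      show ∫ α, (tn R α * ct c α) * Real.cos (2 * Real.pi * α * 0) = _
      simp
    rw [h4, abs_zero, add_zero, one_pow, mul_one] at h2
    rw [Real.dist_eq]
    linarith
  have hsum := (hL1.const_mul h).add hL2
  have hval : h * c 0 + ∫ a, ct c a * (chi h a - gg h a) = MZ (fun x => sn h x ^ 2 * b x) := by
    rw [ct_swap c _ hci hWi]
    unfold MZ
    have e1 : h * c 0 = sn h 0 ^ 2 * b 0 := by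
      show h * (b 0 * sn h 0) = _
      rw [hs0]
      ring
    rw [e1]
    congr 1
    have hne : ∀ᵐ x : ℝ, x ≠ 0 := by
      rw [ae_iff]
      simp
    refine integral_congr_ae ?_
    filter_upwards [hne] with x hx
    have hcos : ∀ f : ℝ → ℝ, Integrable f → Integrable fun a => f a * Real.cos (2 * Real.pi * a * x) := by
      intro f hf
      refine hf.mul_bdd (c := 1) (Continuous.aestronglyMeasurable (by fun_prop)) ?_
      exact Eventually.of_forall fun p => by
        rw [Real.norm_eq_abs]
        exact Real.abs_cos_le_one _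
    have e2 : ct (fun a => chi h a - gg h a) x = sn h x - sn h x * ct (tn 1) x := by
      have e3 : ct (fun a => chi h a - gg h a) x = ct (chi h) x - ct (gg h) x := by
        unfold ct
        rw [← integral_sub (hcos _ hki) (hcos _ hgi)]
        refine integral_congr_ae (Eventually.of_forall fun a => ?_)
        show (chi h a - gg h a) * Real.cos (2 * Real.pi * a * x) = _
        ring
      rw [e3, ct_gg hT, ct_chi h hh]
    show c x * ct (fun a => chi h a - gg h a) x = sn h x ^ 2 * b x * (1 - (Real.sin (Real.pi * x) / (Real.pi * x)) ^ 2)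
    rw [e2, (hT 1 one_pos).2.2.2.1 x hx]
    show b x * sn h x * (sn h x - sn h x * (1 * (Real.sin (Real.pi * (1 * x)) / (Real.pi * (1 * x))) ^ 2)) = _
    rw [one_mul, one_mul]
    ring
  rw [hval] at hsum
  refine hsum.congr' ?_
  filter_upwards [eventually_gt_atTop 0] with R hR
  obtain ⟨hk1, hk2, -⟩ := hA1 c hcc hce hcs R hR
  have hk3 : Integrable (fun a => tn R a * ct c a) := hk1.integrable_of_hasCompactSupport hk2
  have hk4 : Integrable (fun a => (tn R a * ct c a) * (chi h a - gg h a)) := by
    refine hWi.bdd_mul (c := M) hk1.aestronglyMeasurable ?_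
    exact Eventually.of_forall fun a => by
      rw [Real.norm_eq_abs]
      exact hkb R hR a
  rw [← integral_const_mul, ← integral_add (hk3.const_mul h) hk4]
  refine integral_congr_ae (Eventually.of_forall fun a => ?_)
  show h * (tn R a * ct c a) + (tn R a * ct c a) * (chi h a - gg h a) = (tn R a * ct c a) * nuw h a
  rw [nuw_eq hT h hh]
  ring

end Pool.Agent.W108.PF
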